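import Pool.Agent.W8.KU.Stm

/-!
# Project KU: the interfaces of the cluster
-/

open Metric

namespace Pool.Agent.W2.KU

open Pool.Agent.W8.KU

theorem norm_P0 : ‖P0‖ = 20 := by
  unfold P0
  rw [EuclideanSpace.norm_single]
  norm_num

theorem d36 : ∀ x : E3, x ∈ sphere (0 : E3) 3 → x ∈ sphere (0 : E3) 6 → False := by
  intro x h1 h2
  rw [mem_sphere] at h1 h2
  rw [h1] at h2
  norm_num at h2

theorem far (x : E3) (h : x ∈ sphere P0 2) : 18 ≤ dist x 0 := by
  rw [mem_sphere] at h
  have h1 : dist P0 0 ≤ dist P0 x + dist x 0 := dist_triangle _ _ _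
  rw [dist_zero_right P0, norm_P0, dist_comm P0 x, h] at h1
  linarith

theorem d23 : ∀ x : E3, x ∈ sphere P0 2 → x ∈ sphere (0 : E3) 3 → False := by
  intro x h1 h2
  have h3 := far x h1
  rw [mem_sphere] at h2
  rw [h2] at h3
  norm_num at h3

theorem d26 : ∀ x : E3, x ∈ sphere P0 2 → x ∈ sphere (0 : E3) 6 → False := by
  intro x h1 h2
  have h3 := far x h1
  rw [mem_sphere] at h2
  rw [h2] at h3
  norm_num at h3

theorem Int_proof : Fr → Pool.Agent.W8.KU.Int := by
  rintro ⟨_, h0, h1, hn⟩
  have e0n : interface Om (some 0) none = sphere P0 2 := by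
    unfold interface
    rw [h0, hn]
    ext x
    constructor
    · rintro ⟨ha | ha, hb | hb⟩
      · exact ha
      · exact ha
      · exact hb
      · exact (d36 x ha hb).elim
    · intro h
      exact ⟨Or.inl h, Or.inl h⟩
  have e1n : interface Om (some 1) none = sphere 0 6 := by
    unfold interface
    rw [h1, hn]
    ext x
    constructor
    · rintro ⟨ha | ha, hb | hb⟩
      · exact (d23 x hb ha).elim
      · exact hb
      · exact ha
      · exact ha
    · intro h
      exact ⟨Or.inr h, Or.inr h⟩
  have e01 : interface Om (some 0) (some 1) = sphere 0 3 := by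
    unfold interface
    rw [h0, h1]
    ext x
    constructor
    · rintro ⟨ha | ha, hb | hb⟩
      · exact hb
      · exact (d26 x ha hb).elim
      · exact ha
      · exact ha
    · intro h
      exact ⟨Or.inr h, Or.inl h⟩
  have en0 : interface Om none (some 0) = sphere P0 2 := by
    rw [← e0n]
    exact Set.inter_comm _ _
  have en1 : interface Om none (some 1) = sphere 0 6 := by
    rw [← e1n]
    exact Set.inter_comm _ _
  have e10 : interface Om (some 1) (some 0) = sphere 0 3 := by
    rw [← e01]
    exact Set.inter_comm _ _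
  refine ⟨e0n, en0, e1n, en1, e01, e10, ?_⟩
  ext x
  constructor
  · rintro ⟨i, j, hij, hx⟩
    have hcase : ∀ i : Option (Fin 2), i = none ∨ i = some 0 ∨ i = some 1 := by
      intro i
      rcases i with _ | i
      · exact Or.inl rfl
      · fin_cases i
        · exact Or.inr (Or.inl rfl)
        · exact Or.inr (Or.inr rfl)
    rcases hcase i with rfl | rfl | rfl <;> rcases hcase j with rfl | rfl | rfl
    · exact (hij rfl).elim
    · rw [en0] at hx
      exact Or.inl hx
    · rw [en1] at hx
      exact Or.inr (Or.inr hx)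
    · rw [e0n] at hx
      exact Or.inl hx
    · exact (hij rfl).elim
    · rw [e01] at hx
      exact Or.inr (Or.inl hx)
    · rw [e1n] at hx
      exact Or.inr (Or.inr hx)
    · rw [e10] at hx
      exact Or.inr (Or.inl hx)
    · exact (hij rfl).elim
  · rintro (h | h | h)
    · exact ⟨some 0, none, by simp, by rw [e0n]; exact h⟩
    · exact ⟨some 0, some 1, by simp, by rw [e01]; exact h⟩
    · exact ⟨some 1, none, by simp, by rw [e1n]; exact h⟩

end Pool.Agent.W2.KU
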